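import Pool.Agent.U753.MX.Stm

/-! Project MX (helper753), package GV (helper580): the Gibbs variational inequality. -/

set_option autoImplicit false

open scoped BigOperators Matrix ComplexOrder

noncomputable section

namespace Pool.Agent.U580.MX

open Pool.Agent.U753.MX
open Pool.Agent.U753.MK (vnE)

variable {n : Type} [Fintype n] [DecidableEq n]

/-- the trace of a product of two Hermitian matrices in terms of the overlaps -/
lemma trace_prod (U V : Matrix n n ℂ) (p k : n → ℝ) :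
    ((U * Matrix.diagonal (fun j => ((p j : ℝ) : ℂ)) * Uᴴ) *
      (V * Matrix.diagonal (fun j => ((k j : ℝ) : ℂ)) * Vᴴ)).trace.re =
      ∑ i, ∑ j, p i * (k j * ‖(Uᴴ * V) i j‖ ^ 2) := by
  have h1 : ((U * Matrix.diagonal (fun j => ((p j : ℝ) : ℂ)) * Uᴴ) *
      (V * Matrix.diagonal (fun j => ((k j : ℝ) : ℂ)) * Vᴴ)).trace =
      (Matrix.diagonal (fun j => ((p j : ℝ) : ℂ)) * ((Uᴴ * V) *
        (Matrix.diagonal (fun j => ((k j : ℝ) : ℂ)) * (Uᴴ * V)ᴴ))).trace := by
    rw [Matrix.conjTranspose_mul, Matrix.conjTranspose_conjTranspose]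
    have : (U * Matrix.diagonal (fun j => ((p j : ℝ) : ℂ)) * Uᴴ) *
      (V * Matrix.diagonal (fun j => ((k j : ℝ) : ℂ)) * Vᴴ) =
      U * (Matrix.diagonal (fun j => ((p j : ℝ) : ℂ)) * (Uᴴ * V) *
        Matrix.diagonal (fun j => ((k j : ℝ) : ℂ)) * Vᴴ) := by
      simp only [mul_assoc]
    rw [this, Matrix.trace_mul_comm]
    simp only [mul_assoc]
  rw [h1, Matrix.trace, Complex.re_sum]
  refine Finset.sum_congr rfl fun i _ => ?_
  rw [Matrix.diag_apply, Matrix.diagonal_mul, Complex.re_ofReal_mul, Matrix.mul_apply,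
    Complex.re_sum, Finset.mul_sum]
  refine Finset.sum_congr rfl fun j _ => ?_
  rw [Matrix.diagonal_mul, Matrix.conjTranspose_apply]
  congr 1
  have : (Uᴴ * V) i j * (((k j : ℝ) : ℂ) * star ((Uᴴ * V) i j)) =
      ((k j * ‖(Uᴴ * V) i j‖ ^ 2 : ℝ) : ℂ) := by
    have h2 : (Uᴴ * V) i j * star ((Uᴴ * V) i j) = ((‖(Uᴴ * V) i j‖ ^ 2 : ℝ) : ℂ) := by
      rw [← starRingEnd_apply, RCLike.mul_conj]
      norm_cast
    rw [Complex.ofReal_mul, ← h2]
    ring
  rw [this, Complex.ofReal_re]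

lemma row_sum (W : Matrix n n ℂ) (hW : W * Wᴴ = 1) (i : n) : ∑ j, ‖W i j‖ ^ 2 = 1 := by
  have h1 : (W * Wᴴ) i i = 1 := by rw [hW, Matrix.one_apply_eq]
  rw [Matrix.mul_apply] at h1
  have h2 : ((∑ j, ‖W i j‖ ^ 2 : ℝ) : ℂ) = 1 := by
    rw [← h1]
    push_cast
    refine Finset.sum_congr rfl fun s _ => ?_
    rw [Matrix.conjTranspose_apply, ← starRingEnd_apply, RCLike.mul_conj]
    norm_cast
  exact_mod_cast h2

lemma col_sum (W : Matrix n n ℂ) (hW : Wᴴ * W = 1) (j : n) : ∑ i, ‖W i j‖ ^ 2 = 1 := by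
  have h1 : (Wᴴ * W) j j = 1 := by rw [hW, Matrix.one_apply_eq]
  rw [Matrix.mul_apply] at h1
  have h2 : ((∑ i, ‖W i j‖ ^ 2 : ℝ) : ℂ) = 1 := by
    rw [← h1]
    push_cast
    refine Finset.sum_congr rfl fun s _ => ?_
    rw [Matrix.conjTranspose_apply, ← starRingEnd_apply, RCLike.conj_mul]
    norm_cast
  exact_mod_cast h2

theorem t_gv : StmGV := by
  intro n _ _ ρ K hρ htr hK
  have hH := hρ.isHermitian
  set U : Matrix n n ℂ := (hH.eigenvectorUnitary : Matrix n n ℂ) with hU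
  set p : n → ℝ := hH.eigenvalues with hp
  set V : Matrix n n ℂ := (hK.eigenvectorUnitary : Matrix n n ℂ) with hV
  set k : n → ℝ := hK.eigenvalues with hk
  have hUU : Uᴴ * U = 1 := Unitary.coe_star_mul_self hH.eigenvectorUnitary
  have hUU' : U * Uᴴ = 1 := Unitary.coe_mul_star_self hH.eigenvectorUnitary
  have hVV : Vᴴ * V = 1 := Unitary.coe_star_mul_self hK.eigenvectorUnitary
  have hVV' : V * Vᴴ = 1 := Unitary.coe_mul_star_self hK.eigenvectorUnitary
  have hρ1 : ρ = U * Matrix.diagonal (fun j => ((p j : ℝ) : ℂ)) * Uᴴ := hH.spectral_theorem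
  have hK1 : K = V * Matrix.diagonal (fun j => ((k j : ℝ) : ℂ)) * Vᴴ := hK.spectral_theorem
  have hp0 : ∀ i, 0 ≤ p i := fun i => hρ.eigenvalues_nonneg i
  have hp1 : ∑ i, p i = 1 := by
    have h1 := hH.trace_eq_sum_eigenvalues
    rw [htr] at h1
    have h2 : ((∑ i, p i : ℝ) : ℂ) = 1 := by
      rw [h1]
      push_cast
      rfl
    exact_mod_cast h2
  have hinv : V⁻¹ = Vᴴ := Matrix.inv_eq_right_inv hVV'
  have hexp : NormedSpace.exp (-K) =
      V * Matrix.diagonal (fun j => ((Real.exp (-k j) : ℝ) : ℂ)) * Vᴴ := by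
    have h0 : -K = V * Matrix.diagonal (fun j => ((-k j : ℝ) : ℂ)) * Vᴴ := by
      rw [hK1]
      have : Matrix.diagonal (fun j => ((-k j : ℝ) : ℂ)) =
          -Matrix.diagonal (fun j => ((k j : ℝ) : ℂ)) := by
        rw [Matrix.diagonal_neg]
        congr 1
        funext j
        push_cast
        rfl
      rw [this, mul_neg, neg_mul]
    rw [h0, ← hinv, Matrix.exp_conj _ _ (IsUnit.of_mul_eq_one _ hVV'), Matrix.exp_diagonal]
    congr 3
    funext j
    rw [Pi.coe_exp, Complex.ofReal_exp, Complex.exp_eq_exp_ℂ]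
  have hpart : part K = ∑ j, Real.exp (-k j) := by
    unfold part
    rw [hexp, Matrix.trace_mul_comm, ← mul_assoc, hVV, one_mul, Matrix.trace_diagonal,
      Complex.re_sum]
    simp only [Complex.ofReal_re]
  set W : Matrix n n ℂ := Uᴴ * V with hW
  have hW1 : W * Wᴴ = 1 := by
    rw [hW, Matrix.conjTranspose_mul, Matrix.conjTranspose_conjTranspose]
    calc Uᴴ * V * (Vᴴ * U) = Uᴴ * (V * Vᴴ) * U := by simp only [mul_assoc]
      _ = 1 := by rw [hVV', mul_one, hUU]
  have hW2 : Wᴴ * W = 1 := by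
    rw [hW, Matrix.conjTranspose_mul, Matrix.conjTranspose_conjTranspose]
    calc Vᴴ * U * (Uᴴ * V) = Vᴴ * (U * Uᴴ) * V := by simp only [mul_assoc]
      _ = 1 := by rw [hUU', mul_one, hVV]
  have hE : vnE ρ = ∑ i, Real.negMulLog (p i) := by
    unfold vnE
    rw [dif_pos hH]
  have hT : (ρ * K).trace.re = ∑ i, ∑ j, p i * (k j * ‖W i j‖ ^ 2) := by
    rw [hρ1, hK1]
    exact trace_prod U V p k
  rw [hE, hT, hpart]
  obtain ⟨Z, hZ⟩ : ∃ Z, Z = ∑ j, Real.exp (-k j) := ⟨_, rfl⟩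
  have hne : Nonempty n := by
    by_contra hne
    rw [not_nonempty_iff] at hne
    rw [Finset.univ_eq_empty, Finset.sum_empty] at hp1
    exact zero_ne_one hp1
  have hZ0 : 0 < Z := by
    rw [hZ]; exact Finset.sum_pos (fun j _ => Real.exp_pos _) Finset.univ_nonempty
  rw [← hZ]
  -- the inequality for each pair
  have key : ∀ i j, ‖W i j‖ ^ 2 * (Real.negMulLog (p i) - p i * k j - p i * Real.log Z) ≤
      ‖W i j‖ ^ 2 * (Real.exp (-k j) / Z - p i) := by
    intro i j
    refine mul_le_mul_of_nonneg_left ?_ (by positivity)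
    rcases (hp0 i).eq_or_lt with h0 | h0
    · rw [← h0]
      simp only [Real.negMulLog_zero, zero_mul, sub_zero]
      positivity
    · have h1 : Real.negMulLog (p i) - p i * k j - p i * Real.log Z =
          p i * Real.log (Real.exp (-k j) / (p i * Z)) := by
        rw [Real.log_div (Real.exp_pos _).ne' (mul_pos h0 hZ0).ne', Real.log_mul h0.ne' hZ0.ne',
          Real.log_exp, Real.negMulLog]
        ring
      have h2 := Real.log_le_sub_one_of_pos (div_pos (Real.exp_pos (-k j)) (mul_pos h0 hZ0))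
      rw [h1]
      refine (mul_le_mul_of_nonneg_left h2 h0.le).trans (le_of_eq ?_)
      field_simp
  have hs := Finset.sum_le_sum fun i (_ : i ∈ Finset.univ) =>
    Finset.sum_le_sum fun j (_ : j ∈ Finset.univ) => key i j
  have hr : ∑ i, ∑ j, ‖W i j‖ ^ 2 * (Real.exp (-k j) / Z - p i) = 0 := by
    have e1 : ∀ i, ∑ j, ‖W i j‖ ^ 2 * (Real.exp (-k j) / Z - p i) =
        (∑ j, ‖W i j‖ ^ 2 * (Real.exp (-k j) / Z)) - p i := by
      intro i
      simp only [mul_sub]
      rw [Finset.sum_sub_distrib, ← Finset.sum_mul, row_sum W hW1 i, one_mul]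
    simp only [e1]
    rw [Finset.sum_sub_distrib, hp1, Finset.sum_comm]
    have e2 : ∀ j, ∑ i, ‖W i j‖ ^ 2 * (Real.exp (-k j) / Z) = Real.exp (-k j) / Z := by
      intro j
      rw [← Finset.sum_mul, col_sum W hW2 j, one_mul]
    simp only [e2]
    rw [← Finset.sum_div, ← hZ, div_self hZ0.ne', sub_self]
  have hl : ∑ i, ∑ j, ‖W i j‖ ^ 2 * (Real.negMulLog (p i) - p i * k j - p i * Real.log Z) =
      (∑ i, Real.negMulLog (p i)) - (∑ i, ∑ j, p i * (k j * ‖W i j‖ ^ 2)) - Real.log Z := by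
    have e1 : ∀ i, ∑ j, ‖W i j‖ ^ 2 * (Real.negMulLog (p i) - p i * k j - p i * Real.log Z) =
        Real.negMulLog (p i) - (∑ j, p i * (k j * ‖W i j‖ ^ 2)) - p i * Real.log Z := by
      intro i
      have e2 : ∀ j, ‖W i j‖ ^ 2 * (Real.negMulLog (p i) - p i * k j - p i * Real.log Z) =
          ‖W i j‖ ^ 2 * Real.negMulLog (p i) - p i * (k j * ‖W i j‖ ^ 2) -
            ‖W i j‖ ^ 2 * (p i * Real.log Z) := fun j => by ring
      simp only [e2]
      rw [Finset.sum_sub_distrib, Finset.sum_sub_distrib, ← Finset.sum_mul, ← Finset.sum_mul,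
        row_sum W hW1 i, one_mul, one_mul]
    simp only [e1]
    rw [Finset.sum_sub_distrib, Finset.sum_sub_distrib, ← Finset.sum_mul, hp1, one_mul]
  rw [hr, hl] at hs
  linarith

end Pool.Agent.U580.MX
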